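import Pool.Agent.K3h5.IB.Fin
import Pool.Agent.K3h4.IB.Route
import Pool.Agent.K3h85.IB.Fair
import Pool.Agent.K3h85.IB.Exc
import Pool.Agent.K3h87.IB.CutG
import Pool.Agent.K3h7.IB.NICE
import Pool.Agent.K3h19.IB.IND
import Pool.Agent.K3h25.IB.Cons
import Pool.Agent.K3h16.IB.Cnt
import Pool.Agent.K3h99.IB.Hit
import Pool.Agent.K3h86.IB.FIN
import Pool.Agent.K3h3.IB.Df
import Pool.Agent.K3h28.IB.MEAS1
import Pool.Agent.K3h51.IB.MEAS2
import Pool.Agent.K3h40.IB.Measw
import Pool.Agent.K3h40.IB.Prob
import Pool.Agent.K3h51.IB.ASFAIR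
import Pool.Agent.K3h51.IB.LAW0
import Pool.Agent.K3h91.IB.Lln
import Pool.Agent.K3h33.IB.Pos
import Pool.Agent.K3h33.IB.EB
import Pool.Agent.K3h54.IB.BC
import Pool.Agent.K3h4.IB.GoodAs
import Pool.Agent.K3h45.IB.Lim
import Pool.Agent.K3h58.IB.Model
import Pool.Agent.K3h58.IB.Dep
import Pool.Agent.K3h6.IB.Repl
import Pool.Agent.K3h92.IB.One
import Pool.Agent.K3h94.IB.Uniq
import Pool.Agent.K3h12.IB.Law

/-!
# The limiting iterated biased random walk has a deterministic velocity

Let `X^(0)` be a random walk on `ℤ^d` with step distribution `p 0`, `Z^(i+1)` the trace of `X^(i)`, and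
`X^(i)` a `p i`-random walk on `Z^(i)`; `Z^(∞)` is the intersection of the graphs `Z^(i)` and
`Y = X^(∞)` a `q`-random walk on `Z^(∞)`. We prove that `Y n / n` converges almost surely to the
deterministic vector `κ δ`, where `δ` is the drift of `p 0` and the constant `κ ≥ 0` depends only on `d`,
`p` and `q`. The only assumptions are that all the probabilities `p i e`, `q e` are positive and that
`δ ≠ 0`; the directions of the drifts of the other distributions are arbitrary (so `X^(∞)` may be
recurrent, and then `κ = 0`).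

Definitions (`Pool.Agent.K3h5.IB.Defs`): `V d = ℤ^d`; `D d` is the set of the directions `± e_j`, `vec e`
the unit vector of `e`; a subgraph of `ℤ^d` is the set of the pairs `(v, e)` for which the edge
`{v, v + vec e}` belongs to the graph; `trace y` is the trace of the path `y`; `graph X i` is `Z^(i)` and
`graphInf X` is `Z^(∞)`; `weight p Z y n` is the probability that the `p`-random walk on `Z` starts with
the path `y 0, …, y n`; `IsWalk μ p 𝒢 Z X` says that, conditionally on `𝒢`, `X` is a `p`-random walk on `Z`;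
`IsIterated μ p q X Y` says that `X^(i)` is a `p i`-random walk on `Z^(i)`, conditionally on
`X^(0), …, X^(i-1)`, and `Y` a `q`-random walk on `Z^(∞)`, conditionally on `Z^(∞)`.

Idea of the proof (the idea of cut edges, stacks indexed by the times of the first visits and the ergodic
theorem is due to helper80). Realise all walks by stacks of instructions: after its `m`-th visit to the
vertex `v` the walk of level `i` uses an instruction which is attached to `m`, `i`, the set of the edges of
`Z^(i)` at `v`, and to the time of the first visit of `X^(0)` to `v`. At a cut time `c` of `X^(0)` (all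
heights in the direction `δ` are at most that of `X^(0)_c` before `c`, and larger after `c`) there is only
one edge to the right, and the parts of all graphs and walks to the right of the cut, with the excursions
to the left deleted, are those of the input shifted by `c` (excision lemma). Hence the time at which
`X^(∞)` first visits the `m`-th cut vertex is given by an exact formula as a sum of `m` terms which
are functions of the shifted inputs, and Birkhoff's theorem for the two-sided Bernoulli shift gives its
asymptotic behaviour, also if the mean is infinite.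

The parts of the proof were written by helpers 4, 85, 87, 7, 19, 25, 16, 99, 86, 3, 28, 51, 40, 91, 33, 54,
45, 58, 6, 92, 94, 12 (folders `IB`).
-/

set_option autoImplicit false

open MeasureTheory Filter Topology

universe u

namespace Pool.Agent.Results.MP_bb3c31_pr.DeterministicVelocity

open Pool.Agent.K3h5.IB

theorem route : S_ROUTE := Pool.Agent.K3h4.IB.t_ROUTE
theorem fair : S_FAIR := Pool.Agent.K3h85.IB.t_FAIR
theorem exc : S_EXC := Pool.Agent.K3h85.IB.t_EXC
theorem cutg : S_CUTG := Pool.Agent.K3h87.IB.t_CUTG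
theorem nice : S_NICE := Pool.Agent.K3h7.IB.t_NICE cutg
theorem cross : S_CROSS := Pool.Agent.K3h7.IB.t_CROSS route fair cutg nice
theorem ind : S_IND := Pool.Agent.K3h19.IB.t_IND route fair cutg nice cross
theorem cons : S_CONS := Pool.Agent.K3h25.IB.t_CONS route fair cutg nice cross ind exc
theorem consy : S_CONSY := Pool.Agent.K3h25.IB.t_CONSY route fair cutg nice cross ind exc cons
theorem cnt : S_CNT := Pool.Agent.K3h16.IB.t_CNT route fair cutg nice cross ind consy
theorem hit : S_HIT := Pool.Agent.K3h99.IB.t_HIT route fair cutg nice cross ind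
theorem fin : S_FIN := Pool.Agent.K3h86.IB.t_FIN route fair cutg nice cross ind consy hit
theorem df : S_DF := Pool.Agent.K3h3.IB.t_DF
theorem meas1 : S_MEAS1 := Pool.Agent.K3h28.IB.t_MEAS1 route
theorem meas2 : S_MEAS2 := Pool.Agent.K3h51.IB.t_MEAS2 meas1
theorem measw : S_MEASW := Pool.Agent.K3h40.IB.t_MEASW
theorem prob : S_PROB := Pool.Agent.K3h40.IB.t_PROB
theorem asfair : S_ASFAIR := Pool.Agent.K3h51.IB.t_ASFAIR prob
theorem lln : S_LLN := Pool.Agent.K3h91.IB.t_LLN prob
theorem pos : S_POS := Pool.Agent.K3h33.IB.t_POS prob lln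
theorem eb : S_EB := Pool.Agent.K3h33.IB.t_EB
theorem bc : S_BC := Pool.Agent.K3h54.IB.t_BC prob lln pos eb meas2
theorem goodas : S_GOODAS := Pool.Agent.K3h4.IB.t_GOODAS prob lln asfair bc pos
theorem lim : S_LIM := Pool.Agent.K3h45.IB.t_LIM prob pos bc goodas meas2 cutg cnt hit fin
theorem model : S_MODEL := Pool.Agent.K3h58.IB.t_MODEL goodas lln cutg hit df lim
theorem repl : S_REPL := Pool.Agent.K3h6.IB.t_REPL prob
theorem dep : S_DEP := Pool.Agent.K3h58.IB.t_DEP
theorem one : S_ONE := Pool.Agent.K3h92.IB.t_ONE prob route repl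
theorem law0 : S_LAW0 := Pool.Agent.K3h51.IB.t_LAW0 prob
theorem law : S_LAW := Pool.Agent.K3h12.IB.t_LAW prob dep one law0 meas1 ind goodas
theorem uniq : S_UNIQ.{u} := Pool.Agent.K3h94.IB.t_UNIQ.{u} measw

/-- **The velocity of the limiting iterated biased random walk is deterministic.** -/
theorem result (d : ℕ) (p : ℕ → D d → ℝ) (q : D d → ℝ)
    (hp : ∀ i e, 0 < p i e) (hp1 : ∀ i, ∑ e, p i e = 1) (hq : ∀ e, 0 < q e) (hq1 : ∑ e, q e = 1)
    (hδ : ∃ j, drift (p 0) j ≠ 0) :
    ∃ κ : ℝ, 0 ≤ κ ∧ ∀ (Ω : Type u) [MeasurableSpace Ω] (μ : Measure Ω) [IsProbabilityMeasure μ]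
      (X : Ω → ℕ → ℕ → V d) (Y : Ω → ℕ → V d), IsIterated μ p q X Y →
        ∀ᵐ ω ∂μ, ∀ j : Fin d,
          Tendsto (fun n : ℕ => (Y ω n j : ℝ) / n) atTop (𝓝 (κ * drift (p 0) j)) :=
  final prob model law uniq.{u} d p q ⟨hp, hp1, hq, hq1, hδ⟩

end Pool.Agent.Results.MP_bb3c31_pr.DeterministicVelocity
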